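import Pool.Agent.Q93.CV.Abs

/-! Choices of progressions with few points: upper bounds. -/

set_option autoImplicit false

open Finset Filter

namespace Pool.Agent.Q93.EP

open Pool.Agent.Q93.CV (prod_le_pow card_small)

/-- the weight of the choices of pairs with a small union -/
theorem weight_union {D Q V : Type} [Fintype D] [DecidableEq D] [Fintype Q] [Fintype V]
    [DecidableEq V] (x y : D → Q → V)
    (hinj : Function.Injective fun z : D × Q => (x z.1 z.2, y z.1 z.2))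
    (π : D → Q → ℝ) (hπ0 : ∀ d p, 0 ≤ π d p) {ρ : ℝ} (hρ0 : 0 ≤ ρ) (hρ : ∀ d p, π d p ≤ ρ)
    (hD : 0 < Fintype.card D) (q : ℕ) :
    ∑ a ∈ univ.filter (fun a : D → Q =>
      (univ.biUnion fun d => ({x d (a d), y d (a d)} : Finset V)).card ≤ q), ∏ d, π d (a d) ≤
      (Fintype.card V + 1) ^ q * (ρ * (q : ℝ) ^ 2 / Fintype.card D) ^ Fintype.card D := by
  classical
  set F : Finset V → D → Finset Q := fun E d => univ.filter fun p => x d p ∈ E ∧ y d p ∈ E with hF
  have hsum : ∀ E : Finset V, E.card ≤ q → ∑ d, ((F E d).card : ℝ) ≤ (q : ℝ) ^ 2 := by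
    intro E hE
    have h1 : (univ.sigma fun d => F E d).card ≤ (E ×ˢ E).card := by
      refine card_le_card_of_injOn (fun z : (Σ _ : D, Q) => (x z.1 z.2, y z.1 z.2)) ?_ ?_
      · intro z hz
        rw [mem_coe, mem_sigma, hF, mem_filter] at hz
        rw [mem_coe, mem_product]
        exact hz.2.2
      · intro z _ w _ h
        have := hinj (a₁ := (z.1, z.2)) (a₂ := (w.1, w.2)) h
        obtain ⟨z1, z2⟩ := z
        obtain ⟨w1, w2⟩ := w
        simp only [Prod.mk.injEq] at this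
        obtain ⟨rfl, rfl⟩ := this
        rfl
    rw [card_sigma, card_product] at h1
    have h2 : ((∑ d, (F E d).card : ℕ) : ℝ) ≤ ((E.card * E.card : ℕ) : ℝ) := by exact_mod_cast h1
    push_cast at h2
    have h3 : (E.card : ℝ) ≤ q := by exact_mod_cast hE
    have h4 : (0 : ℝ) ≤ E.card := Nat.cast_nonneg _
    nlinarith
  have hprod : ∀ E : Finset V, E.card ≤ q → ∏ d, ∑ p ∈ F E d, π d p ≤
      (ρ * (q : ℝ) ^ 2 / Fintype.card D) ^ Fintype.card D := by
    intro E hE
    have hc : (univ : Finset D).card = Fintype.card D := card_univ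
    have hD0 : (0 : ℝ) < Fintype.card D := by exact_mod_cast hD
    calc ∏ d, ∑ p ∈ F E d, π d p ≤ ∏ d, (ρ * ((F E d).card : ℝ)) := by
          refine prod_le_prod (fun d _ => sum_nonneg fun p _ => hπ0 _ _) fun d _ => ?_
          calc ∑ p ∈ F E d, π d p ≤ ∑ _p ∈ F E d, ρ := sum_le_sum fun p _ => hρ d p
            _ = _ := by rw [sum_const, nsmul_eq_mul, mul_comm]
      _ ≤ (ρ * (q : ℝ) ^ 2 / Fintype.card D) ^ (univ : Finset D).card := by
          refine prod_le_pow _ _ (fun d _ => by positivity) (by rw [hc]; exact hD) ?_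
          rw [← mul_sum, hc]
          have := mul_le_mul_of_nonneg_left (hsum E hE) hρ0
          refine this.trans (le_of_eq ?_)
          field_simp
      _ = _ := by rw [hc]
  have hcov : ∑ a ∈ univ.filter (fun a : D → Q =>
      (univ.biUnion fun d => ({x d (a d), y d (a d)} : Finset V)).card ≤ q), ∏ d, π d (a d) ≤
      ∑ E ∈ (univ : Finset (Finset V)).filter (fun E => E.card ≤ q),
        ∑ a ∈ Fintype.piFinset (F E), ∏ d, π d (a d) := by
    rw [sum_comm' (t' := univ.filter fun a : D → Q => True) (s' := fun a =>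
      ((univ : Finset (Finset V)).filter (fun E => E.card ≤ q)).filter
        (fun E => a ∈ Fintype.piFinset (F E))) (by
        intro E a; simp only [mem_filter, mem_univ, true_and, and_true])]
    refine le_trans ?_ (sum_le_sum_of_subset_of_nonneg (s := univ.filter (fun a : D → Q =>
      (univ.biUnion fun d => ({x d (a d), y d (a d)} : Finset V)).card ≤ q)) (by
        intro a _; simp) (fun a _ _ => sum_nonneg fun E _ => prod_nonneg fun d _ => hπ0 _ _))
    refine sum_le_sum fun a ha => ?_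
    rw [mem_filter] at ha
    refine single_le_sum (f := fun _ => ∏ d, π d (a d))
      (fun _ _ => prod_nonneg fun d _ => hπ0 _ _)
      (a := univ.biUnion fun d => ({x d (a d), y d (a d)} : Finset V))
      (mem_filter.2 ⟨mem_filter.2 ⟨mem_univ _, ha.2⟩, ?_⟩)
    rw [Fintype.mem_piFinset]
    intro d
    rw [hF]
    simp only [mem_filter, mem_univ, true_and, mem_biUnion]
    exact ⟨⟨d, by simp⟩, ⟨d, by simp⟩⟩
  refine hcov.trans ?_
  calc _ ≤ ∑ _E ∈ (univ : Finset (Finset V)).filter (fun E => E.card ≤ q),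
        (ρ * (q : ℝ) ^ 2 / Fintype.card D) ^ Fintype.card D := by
        refine sum_le_sum fun E hE => ?_
        rw [mem_filter] at hE
        rw [← prod_univ_sum (F E) π]
        exact hprod E hE.2
    _ = (((univ : Finset (Finset V)).filter (fun E => E.card ≤ q)).card : ℝ) *
        (ρ * (q : ℝ) ^ 2 / Fintype.card D) ^ Fintype.card D := by rw [sum_const, nsmul_eq_mul]
    _ ≤ _ := by
        refine mul_le_mul_of_nonneg_right ?_ (by positivity)
        exact_mod_cast card_small (ι := V) q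

/-- the box `{0,…,N-1}^n` -/
abbrev Box (n N : ℕ) : Type := Fin n → Fin N

/-- the points of the progressions `a d + j d`, `0 ≤ j < k` -/
def pts (k : ℕ) {n N : ℕ} (a : Box n N → Box n N) : Finset (Fin n → ℤ) :=
  univ.biUnion fun d => (range k).image fun j : ℕ => fun i =>
    (((a d i : ℕ) : ℤ) + (j : ℤ) * ((d i : ℕ) : ℤ))

/-- pairs as points of the box `{0,…,2N-1}^n` -/
def px {n N : ℕ} (_ p : Box n N) : Box n (2 * N) := fun i => ⟨p i, by omega⟩

/-- pairs as points of the box `{0,…,2N-1}^n` -/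
def py {n N : ℕ} (d p : Box n N) : Box n (2 * N) := fun i => ⟨p i + d i, by omega⟩

lemma p_inj {n N : ℕ} : Function.Injective fun z : Box n N × Box n N => (px z.1 z.2, py z.1 z.2) := by
  rintro ⟨d, p⟩ ⟨d', p'⟩ h
  simp only [Prod.mk.injEq] at h
  obtain ⟨h1, h2⟩ := h
  have hp : p = p' := by
    funext i
    have := congrFun h1 i
    simp only [px, Fin.mk.injEq] at this
    exact Fin.ext this
  subst hp
  have hd : d = d' := by
    funext i
    have := congrFun h2 i
    simp only [py, Fin.mk.injEq] at this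
    exact Fin.ext (by omega)
  rw [hd]

lemma card_pts {n N k : ℕ} (hk : 2 ≤ k) (a : Box n N → Box n N) :
    (univ.biUnion fun d => ({px d (a d), py d (a d)} : Finset (Box n (2 * N)))).card ≤
      (pts k a).card := by
  refine card_le_card_of_injOn (fun v i => ((v i : ℕ) : ℤ)) ?_ ?_
  · intro v hv
    rw [mem_coe, mem_biUnion] at hv
    obtain ⟨d, -, hv⟩ := hv
    rw [mem_insert, mem_singleton] at hv
    rw [mem_coe]
    unfold pts
    rw [mem_biUnion]
    refine ⟨d, mem_univ _, ?_⟩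
    rw [mem_image]
    rcases hv with rfl | rfl
    · exact ⟨0, mem_range.2 (by omega), by funext i; simp [px]⟩
    · exact ⟨1, mem_range.2 (by omega), by funext i; simp [py]⟩
  · intro v _ w _ h
    funext i
    have := congrFun h i
    simp only [Nat.cast_inj] at this
    exact Fin.ext this

/-- **independent positions**: few points have a very small probability -/
theorem weight_pts (n k : ℕ) (hn : 1 ≤ n) (hk : 2 ≤ k) (K h ε δ : ℝ) (hK : 0 < K)
    (hh : h ≤ 1) (hε : 0 < ε) (hδ : 0 < δ) : ∀ᶠ N : ℕ in atTop,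
    ∀ π : Box n N → Box n N → ℝ, (∀ d p, 0 ≤ π d p) → (∀ d p, π d p ≤ K * (N : ℝ) ^ (-(h * n))) →
    ∑ a ∈ univ.filter (fun a : Box n N → Box n N =>
      ((pts k a).card : ℝ) ≤ (N : ℝ) ^ (n * (1 + h) / 2 - ε)), ∏ d, π d (a d) ≤
      (N : ℝ) ^ (-(2 * ε - δ) * (N : ℝ) ^ (n : ℝ)) := by
  have g1 := ((tendsto_rpow_atTop hε).comp
    tendsto_natCast_atTop_atTop).eventually_ge_atTop ((2 * n + 1) * 2 / δ : ℝ)
  have g2 := ((tendsto_rpow_atTop (half_pos hδ)).comp
    tendsto_natCast_atTop_atTop).eventually_ge_atTop K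
  filter_upwards [g1, g2, eventually_ge_atTop 2] with N h1 h2 h3 π hπ0 hπ
  simp only [Function.comp_apply] at h1 h2
  have hN2 : (2 : ℝ) ≤ N := by exact_mod_cast h3
  have hN0 : (0 : ℝ) < N := by linarith
  obtain ⟨s, hs⟩ : ∃ s, s = n * (1 + h) / 2 - ε := ⟨_, rfl⟩
  obtain ⟨q, hq⟩ : ∃ q, q = ⌊(N : ℝ) ^ s⌋₊ := ⟨_, rfl⟩
  have hqN : (q : ℝ) ≤ (N : ℝ) ^ s := by rw [hq]; exact Nat.floor_le (by positivity)
  have hD : Fintype.card (Box n N) = N ^ n := by
    rw [Fintype.card_fun, Fintype.card_fin, Fintype.card_fin]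
  have hV : Fintype.card (Box n (2 * N)) = (2 * N) ^ n := by
    rw [Fintype.card_fun, Fintype.card_fin, Fintype.card_fin]
  have hw := weight_union (px (n := n) (N := N)) py p_inj π hπ0
    (ρ := K * (N : ℝ) ^ (-(h * n))) (by positivity) hπ (by rw [hD]; positivity) q
  rw [hD, hV] at hw
  have hsub : ∑ a ∈ univ.filter (fun a : Box n N → Box n N =>
      ((pts k a).card : ℝ) ≤ (N : ℝ) ^ (n * (1 + h) / 2 - ε)), ∏ d, π d (a d) ≤
      ∑ a ∈ univ.filter (fun a : Box n N → Box n N =>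
      (univ.biUnion fun d => ({px d (a d), py d (a d)} : Finset (Box n (2 * N)))).card ≤ q),
        ∏ d, π d (a d) := by
    refine sum_le_sum_of_subset_of_nonneg ?_ fun a _ _ => prod_nonneg fun d _ => hπ0 _ _
    intro a ha
    rw [mem_filter] at ha ⊢
    refine ⟨mem_univ _, (card_pts hk a).trans ?_⟩
    rw [hq, hs]
    exact Nat.le_floor ha.2
  refine hsub.trans (hw.trans ?_)
  push_cast
  have hNn : (N : ℝ) ^ n = (N : ℝ) ^ (n : ℝ) := (Real.rpow_natCast _ _).symm
  -- the two factors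
  have e1 : ((2 * (N : ℝ)) ^ n + 1) ^ q ≤ (N : ℝ) ^ ((2 * n + 1) * (N : ℝ) ^ s) := by
    have e2 : (2 * (N : ℝ)) ^ n + 1 ≤ (N : ℝ) ^ (2 * (n : ℝ) + 1) := by
      have e3 : (2 * (N : ℝ)) ^ n ≤ ((N : ℝ) ^ 2) ^ n :=
        pow_le_pow_left₀ (by positivity) (by nlinarith) n
      have e4 : ((N : ℝ) ^ 2) ^ n * N = (N : ℝ) ^ (2 * (n : ℝ) + 1) := by
        rw [Real.rpow_add_one hN0.ne', ← pow_mul, ← Real.rpow_natCast]
        push_cast
        rfl
      have e5 : (1 : ℝ) ≤ ((N : ℝ) ^ 2) ^ n := one_le_pow₀ (by nlinarith)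
      rw [← e4]
      nlinarith
    calc ((2 * (N : ℝ)) ^ n + 1) ^ q ≤ ((N : ℝ) ^ (2 * (n : ℝ) + 1)) ^ q :=
          pow_le_pow_left₀ (by positivity) e2 q
      _ = (N : ℝ) ^ ((2 * (n : ℝ) + 1) * q) := by rw [← Real.rpow_natCast, ← Real.rpow_mul hN0.le]
      _ ≤ _ := Real.rpow_le_rpow_of_exponent_le (by linarith) (by gcongr)
  have e6 : K * (N : ℝ) ^ (-(h * n)) * (q : ℝ) ^ 2 / (N : ℝ) ^ n ≤ (N : ℝ) ^ (-(2 * ε) + δ / 2) := by
    calc K * (N : ℝ) ^ (-(h * n)) * (q : ℝ) ^ 2 / (N : ℝ) ^ n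
        ≤ (N : ℝ) ^ (δ / 2) * (N : ℝ) ^ (-(h * n)) * ((N : ℝ) ^ s) ^ 2 / (N : ℝ) ^ n := by
          gcongr
      _ = (N : ℝ) ^ (-(2 * ε) + δ / 2) := by
          rw [hNn, ← Real.rpow_natCast ((N : ℝ) ^ s) 2, ← Real.rpow_mul hN0.le,
            ← Real.rpow_add hN0, ← Real.rpow_add hN0, ← Real.rpow_sub hN0]
          congr 1
          rw [hs]
          push_cast
          ring
  have e7 : (K * (N : ℝ) ^ (-(h * n)) * (q : ℝ) ^ 2 / (N : ℝ) ^ n) ^ N ^ n ≤
      (N : ℝ) ^ ((-(2 * ε) + δ / 2) * (N : ℝ) ^ (n : ℝ)) := by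
    calc _ ≤ ((N : ℝ) ^ (-(2 * ε) + δ / 2)) ^ N ^ n := pow_le_pow_left₀ (by positivity) e6 _
      _ = _ := by
        rw [← Real.rpow_natCast, ← Real.rpow_mul hN0.le]
        push_cast
        rw [hNn]
  refine (mul_le_mul e1 e7 (by positivity) (by positivity)).trans ?_
  rw [← Real.rpow_add hN0]
  refine Real.rpow_le_rpow_of_exponent_le (by linarith) ?_
  have e8 : (2 * (n : ℝ) + 1) * (N : ℝ) ^ s ≤ δ / 2 * (N : ℝ) ^ (n : ℝ) := by
    have hn0 : (0 : ℝ) ≤ n := Nat.cast_nonneg n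
    have e9 : (N : ℝ) ^ s * (N : ℝ) ^ ε ≤ (N : ℝ) ^ (n : ℝ) := by
      rw [← Real.rpow_add hN0]
      refine Real.rpow_le_rpow_of_exponent_le (by linarith) ?_
      rw [hs]
      nlinarith
    have e10 : (2 * (n : ℝ) + 1) ≤ δ / 2 * (N : ℝ) ^ ε := by
      rw [div_le_iff₀ hδ] at h1
      linarith
    calc (2 * (n : ℝ) + 1) * (N : ℝ) ^ s ≤ δ / 2 * (N : ℝ) ^ ε * (N : ℝ) ^ s := by gcongr
      _ = δ / 2 * ((N : ℝ) ^ s * (N : ℝ) ^ ε) := by ring
      _ ≤ _ := by gcongr
  linarith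

end Pool.Agent.Q93.EP
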