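import Pool.Agent.Q93.TAP.Dim
import Pool.Agent.Q93.EP.Count

/-! Sets with many progressions of every difference, from sets of small dimension. -/

set_option autoImplicit false

open MeasureTheory Metric Set Filter Topology TopologicalSpace

namespace Pool.Agent.Q93.EP

open Pool.Agent.Q93.TAP
open Pool.Agent.Q93.TypK (lat lat_apply exists_lat card_lat)

variable {n k : ℕ}

/-- Rounding, with bounded positions. -/
lemma exists_disc_bdd (n k : ℕ) : ∃ C : ℕ, 1 ≤ C ∧ ∀ (M m R : ℕ) (B : Set (E n)), 1 ≤ M → 1 ≤ k →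
    B ⊆ closedBall 0 R → HasAP k B →
    Cov (1 / (M : ℝ)) m B → ∃ A : Finset (Fin n → ℤ), A.card ≤ C * m ∧
      ∀ d : Fin n → ℤ, (∀ i, 0 ≤ d i ∧ d i < M) → ∃ a : Fin n → ℤ,
        (∀ i, -(R * M : ℤ) ≤ a i ∧ a i ≤ R * M) ∧ ∀ j : ℕ, j < k → (fun i => a i + j * d i) ∈ A := by
  classical
  obtain ⟨C, hC⟩ := card_lat (n := n) one_pos (1 + Real.sqrt n)
  refine ⟨C + 1, by omega, fun M m R B hM hk hBR hB hcov => ?_⟩
  obtain ⟨S, hS, hcov⟩ := hcov
  have hM0 : (0 : ℝ) < M := by exact_mod_cast hM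
  have hfin : ∀ x : E n, {z : Fin n → ℤ | ‖(M : ℝ) • x - lat 1 z‖ ≤ 1 + Real.sqrt n}.Finite := by
    intro x
    by_contra hinf
    obtain ⟨Λ, hΛ, hcard⟩ := Set.Infinite.exists_subset_card_eq hinf (C + 1)
    have := hC Λ ((M : ℝ) • x) (fun z hz => hΛ hz)
    omega
  set A : Finset (Fin n → ℤ) := S.biUnion (fun x => (hfin x).toFinset) with hAdef
  refine ⟨A, ?_, ?_⟩
  · calc A.card ≤ S.card * C := Finset.card_biUnion_le_card_mul _ _ _ fun x _ =>
          hC _ ((M : ℝ) • x) (fun z hz => by simpa using hz)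
      _ ≤ (C + 1) * m := by nlinarith
  · intro d hd
    set r : E n := (M : ℝ)⁻¹ • lat 1 d with hr
    have hr1 : ∀ i, r i ∈ Icc (0 : ℝ) 1 := by
      intro i
      have e : r i = (M : ℝ)⁻¹ * d i := by
        rw [hr, PiLp.smul_apply, lat_apply, smul_eq_mul, one_mul]
      rw [e]
      have h1 : (0 : ℝ) ≤ d i := by exact_mod_cast (hd i).1
      have h2 : (d i : ℝ) ≤ M := by exact_mod_cast (hd i).2.le
      refine ⟨by positivity, ?_⟩
      rw [inv_mul_le_iff₀ hM0]; linarith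
    obtain ⟨a, ha⟩ := hB r hr1
    have haB : a ∈ B := by simpa using ha 0 hk
    have hai : ∀ i, |a i| ≤ R := by
      intro i
      have h1 : ‖a‖ ≤ R := by simpa using hBR haB
      exact (PiLp.norm_apply_le a i).trans h1
    refine ⟨fun i => ⌊(M : ℝ) * a i⌋, fun i => ?_, fun j hj => ?_⟩
    · have h1 := abs_le.1 (hai i)
      constructor
      · apply Int.le_floor.2
        push_cast
        nlinarith
      · have h2 : (⌊(M : ℝ) * a i⌋ : ℝ) ≤ M * a i := Int.floor_le _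
        have h3 : (⌊(M : ℝ) * a i⌋ : ℝ) ≤ ((R * M : ℤ) : ℝ) := by
          push_cast
          nlinarith
        exact_mod_cast h3
    · have h1 := hcov (ha j hj)
      simp only [mem_iUnion, exists_prop] at h1
      obtain ⟨x, hx, hax⟩ := h1
      rw [hAdef, Finset.mem_biUnion]
      refine ⟨x, hx, ?_⟩
      simp only [Set.Finite.mem_toFinset, Set.mem_ofPred_eq]
      have h2 := exists_lat (n := n) one_pos ((M : ℝ) • (a + (j : ℝ) • r))
      have h3 : (fun i => ⌊((M : ℝ) • (a + (j : ℝ) • r)) i / 1⌋) =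
          fun i => ⌊(M : ℝ) * a i⌋ + (j : ℤ) * d i := by
        funext i
        have e : ((M : ℝ) • (a + (j : ℝ) • r)) i / 1 = (M : ℝ) * a i + ((j * d i : ℤ) : ℝ) := by
          simp only [hr, PiLp.smul_apply, PiLp.add_apply, lat_apply, smul_eq_mul, one_mul, div_one]
          push_cast
          field_simp
        rw [e, Int.floor_add_intCast]
      rw [h3, mul_one] at h2
      have h4 : ‖(M : ℝ) • x - (M : ℝ) • (a + (j : ℝ) • r)‖ ≤ 1 := by
        rw [← smul_sub, norm_smul, Real.norm_of_nonneg hM0.le, ← dist_eq_norm, dist_comm]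
        have : dist (a + (j : ℝ) • r) x < 1 / M := hax
        rw [lt_div_iff₀ hM0] at this
        linarith
      calc ‖(M : ℝ) • x - lat 1 (fun i => ⌊(M : ℝ) * a i⌋ + (j : ℤ) * d i)‖
          = ‖((M : ℝ) • x - (M : ℝ) • (a + (j : ℝ) • r)) + ((M : ℝ) • (a + (j : ℝ) • r) -
              lat 1 (fun i => ⌊(M : ℝ) * a i⌋ + (j : ℤ) * d i))‖ := by congr 1; abel
        _ ≤ _ := norm_add_le _ _
        _ ≤ 1 + Real.sqrt n := add_le_add h4 h2

/-- progressions with all differences in `[0,M)^n` and starting points in `[0,L)^n` -/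
def Loc (k M L : ℕ) (A : Finset (Fin n → ℤ)) : Prop :=
  ∀ d : Fin n → ℤ, (∀ i, 0 ≤ d i ∧ d i < M) → ∃ a : Fin n → ℤ, (∀ i, 0 ≤ a i ∧ a i < L) ∧
    ∀ j : ℕ, j < k → (fun i => a i + j * d i) ∈ A

/-- moving the progressions -/
lemma localize {A : Finset (Fin n → ℤ)} {M L K : ℕ} (hL : 1 ≤ L)
    (hA : ∀ d : Fin n → ℤ, (∀ i, 0 ≤ d i ∧ d i < M) → ∃ a : Fin n → ℤ,
      (∀ i, -(K * L : ℤ) ≤ a i ∧ a i ≤ K * L) ∧ ∀ j : ℕ, j < k → (fun i => a i + j * d i) ∈ A) :
    ∃ A' : Finset (Fin n → ℤ), A'.card ≤ (2 * K + 1) ^ n * A.card ∧ Loc k M L A' := by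
  classical
  set T : Finset (Fin n → ℤ) := Finset.Icc (fun _ => -(K : ℤ)) (fun _ => (K : ℤ)) with hT
  have hcard : T.card = (2 * K + 1) ^ n := by
    rw [hT, Pi.card_Icc]
    simp only [Int.card_Icc, Finset.prod_const, Finset.card_univ, Fintype.card_fin]
    congr 1
    omega
  refine ⟨(T ×ˢ A).image fun z i => z.2 i - L * z.1 i, ?_, ?_⟩
  · refine Finset.card_image_le.trans (le_of_eq ?_)
    rw [Finset.card_product, hcard]
  · intro d hd
    obtain ⟨a, ha1, ha2⟩ := hA d hd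
    have hL0 : (0 : ℤ) < L := by exact_mod_cast hL
    refine ⟨fun i => a i % L, fun i => ⟨Int.emod_nonneg _ hL0.ne', Int.emod_lt_of_pos _ hL0⟩,
      fun j hj => ?_⟩
    rw [Finset.mem_image]
    refine ⟨(fun i => a i / L, fun i => a i + j * d i), ?_, ?_⟩
    · rw [Finset.mem_product]
      refine ⟨?_, ha2 j hj⟩
      rw [hT, Finset.mem_Icc]
      constructor
      · intro i
        have := (ha1 i).1
        change -(K : ℤ) ≤ a i / L
        rw [Int.le_ediv_iff_mul_le hL0]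
        linarith
      · intro i
        have := (ha1 i).2
        change a i / L ≤ (K : ℤ)
        exact Int.ediv_le_of_le_mul hL0 this
    · funext i
      have := Int.emod_add_mul_ediv (a i) L
      simp only
      linarith

/-- localized discrete sets of nearly minimal size -/
lemma disc_loc (hk : 1 ≤ k) {t : ℝ} (ht : fM n k < t) :
    ∀ᶠ L : ℕ in atTop, ∃ A : Finset (Fin n → ℤ), (A.card : ℝ) ≤ (L : ℝ) ^ t ∧
      Loc k (2 * L) L A := by
  obtain ⟨s, hs1, hs2⟩ := EReal.lt_iff_exists_real_btwn.1 ht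
  rw [EReal.coe_lt_coe_iff] at hs2
  unfold fM at hs1
  simp only [iInf_lt_iff] at hs1
  obtain ⟨B, hB, hap, hdim⟩ := hs1
  have hne := hap.nonempty hk
  obtain ⟨C, hC1, hC⟩ := exists_disc_bdd n k
  obtain ⟨R₀, hR₀⟩ := hB.subset_closedBall 0
  obtain ⟨R, hR⟩ := exists_nat_ge R₀
  have hBR : B ⊆ closedBall (0 : E n) R := hR₀.trans (closedBall_subset_closedBall hR)
  have h1 := eventually_lt_of_limsup_lt hdim (by isBoundedDefault)
  have h2 : Tendsto (fun L : ℕ => 1 / ((2 * L : ℕ) : ℝ)) atTop (𝓝[>] (0 : ℝ)) := by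
    refine tendsto_nhdsWithin_iff.2 ⟨?_, ?_⟩
    · have : Tendsto (fun L : ℕ => ((2 * L : ℕ) : ℝ)) atTop atTop :=
        tendsto_natCast_atTop_atTop.comp (tendsto_id.const_mul_atTop' (by norm_num))
      exact this.inv_tendsto_atTop.congr fun L => by rw [Pi.inv_apply, one_div]
    · filter_upwards [eventually_ge_atTop 1] with L hL
      have : (0 : ℝ) < ((2 * L : ℕ) : ℝ) := by exact_mod_cast (by omega : 0 < 2 * L)
      exact one_div_pos.2 this
  have h3 := h2.eventually (h1.and small_ev)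
  have h4 : ∀ᶠ L : ℕ in atTop, ((4 * R + 1) ^ n * C * 2 ^ s : ℝ) * (L : ℝ) ^ s ≤ (L : ℝ) ^ t :=
    tendsto_natCast_atTop_atTop.eventually (rpow_ev hs2 _)
  filter_upwards [h3, h4, eventually_ge_atTop 1] with L ⟨h5, h6, h7⟩ h8 hL
  have h9 : (covN (1 / ((2 * L : ℕ) : ℝ)) B : ℝ) ≤ (1 / ((2 * L : ℕ) : ℝ)) ^ (-s) := by
    rw [← expo_le hB hne h6 h7]
    exact_mod_cast h5.le
  obtain ⟨A, hA1, hA2⟩ := hC (2 * L) _ R B (by omega) hk hBR hap (cov_covN hB h6)
  obtain ⟨A', hA'1, hA'2⟩ := localize (A := A) (M := 2 * L) (L := L) (K := 2 * R) hL (by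
    intro d hd
    obtain ⟨a, ha1, ha2⟩ := hA2 d (fun i => ⟨(hd i).1, (hd i).2⟩)
    refine ⟨a, fun i => ?_, ha2⟩
    have := ha1 i
    push_cast at this ⊢
    constructor <;> linarith [this.1, this.2])
  refine ⟨A', ?_, hA'2⟩
  have hL0 : (0 : ℝ) < L := by exact_mod_cast hL
  have e1 : (A'.card : ℝ) ≤ (4 * R + 1) ^ n * (C * covN (1 / ((2 * L : ℕ) : ℝ)) B) := by
    have h10 : A'.card ≤ (2 * (2 * R) + 1) ^ n * (C * covN (1 / ((2 * L : ℕ) : ℝ)) B) :=
      hA'1.trans (Nat.mul_le_mul_left _ hA1)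
    have h11 : (A'.card : ℝ) ≤ (((2 * (2 * R) + 1) ^ n *
      (C * covN (1 / ((2 * L : ℕ) : ℝ)) B) : ℕ) : ℝ) := by exact_mod_cast h10
    refine h11.trans (le_of_eq ?_)
    push_cast
    ring
  calc (A'.card : ℝ) ≤ (4 * R + 1) ^ n * (C * covN (1 / ((2 * L : ℕ) : ℝ)) B) := e1
    _ ≤ (4 * R + 1) ^ n * (C * (1 / ((2 * L : ℕ) : ℝ)) ^ (-s)) := by gcongr
    _ = (4 * R + 1) ^ n * C * 2 ^ s * (L : ℝ) ^ s := by
        rw [rpow_inv_eq (by positivity)]
        push_cast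
        rw [one_div_one_div, Real.mul_rpow (by norm_num) hL0.le]
        ring
    _ ≤ _ := h8

/-- **sets with many progressions of every difference** -/
lemma exists_rich {A : Finset (Fin n → ℤ)} {N M L : ℕ} (hM : 1 ≤ M) (hML : M * L ≤ N)
    (hN : N ≤ 2 * L * M) (hA : Loc k (2 * L) L A) :
    ∃ X : Finset (Fin n → ℤ), X.card ≤ A.card * (k * M) ^ n ∧
      ∃ Ψ : Box n N → Box n M → Box n N, (∀ d, Function.Injective (Ψ d)) ∧
        ∀ (d : Box n N) (u : Box n M) (j : ℕ), j < k →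
          (fun i => (((Ψ d u i : ℕ) : ℤ) + (j : ℤ) * ((d i : ℕ) : ℤ))) ∈ X := by
  classical
  have hq : ∀ (d : Box n N) (i : Fin n), 0 ≤ (((d i : ℕ) / M : ℕ) : ℤ) ∧
      (((d i : ℕ) / M : ℕ) : ℤ) < (2 * L : ℕ) := by
    intro d i
    refine ⟨by positivity, ?_⟩
    have : (d i : ℕ) / M < 2 * L := by
      rw [Nat.div_lt_iff_lt_mul (by omega)]
      exact (d i).2.trans_le hN
    exact_mod_cast this
  choose a ha1 ha2 using fun d : Box n N => hA (fun i => (((d i : ℕ) / M : ℕ) : ℤ)) (hq d)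
  have hst : ∀ (d : Box n N) (u : Box n M) (i : Fin n), M * (a d i).toNat + u i < N := by
    intro d u i
    have h1 := ha1 d i
    have h2 : (a d i).toNat + 1 ≤ L := by omega
    have h3 := (u i).2
    calc M * (a d i).toNat + u i < M * (a d i).toNat + M := by omega
      _ = M * ((a d i).toNat + 1) := by ring
      _ ≤ M * L := Nat.mul_le_mul_left _ h2
      _ ≤ N := hML
  refine ⟨(A ×ˢ (Finset.univ : Finset (Fin n → Fin (k * M)))).image
    fun z i => (M : ℤ) * z.1 i + ((z.2 i : ℕ) : ℤ), ?_,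
    fun d u i => ⟨M * (a d i).toNat + u i, hst d u i⟩, ?_, ?_⟩
  · refine Finset.card_image_le.trans (le_of_eq ?_)
    rw [Finset.card_product, Finset.card_univ, Fintype.card_fun, Fintype.card_fin,
      Fintype.card_fin]
  · intro d u v huv
    funext i
    have := congrFun huv i
    simp only [Fin.mk.injEq] at this
    exact Fin.ext (by omega)
  · intro d u j hj
    have hw : ∀ i, (u i : ℕ) + j * ((d i : ℕ) % M) < k * M := by
      intro i
      have h1 := (u i).2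
      have h2 : (d i : ℕ) % M ≤ M - 1 := by
        have := Nat.mod_lt (d i : ℕ) (show 0 < M by omega)
        omega
      have h3 : j * ((d i : ℕ) % M) ≤ (k - 1) * (M - 1) := Nat.mul_le_mul (by omega) h2
      have h4 : (k - 1) * (M - 1) + (M - 1) = k * (M - 1) := by
        have : k = (k - 1) + 1 := by omega
        conv_rhs => rw [this]
        ring
      have h5 : k * (M - 1) < k * M := Nat.mul_lt_mul_of_pos_left (by omega) (by omega)
      omega
    rw [Finset.mem_image]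
    refine ⟨(fun i => a d i + j * (((d i : ℕ) / M : ℕ) : ℤ), fun i => ⟨_, hw i⟩), ?_, ?_⟩
    · rw [Finset.mem_product]
      exact ⟨ha2 d j hj, Finset.mem_univ _⟩
    · funext i
      simp only
      have h1 : ((a d i).toNat : ℤ) = a d i := Int.toNat_of_nonneg (ha1 d i).1
      have h2 : ((d i : ℕ) : ℤ) = M * (((d i : ℕ) / M : ℕ) : ℤ) + (((d i : ℕ) % M : ℕ) : ℤ) := by
        exact_mod_cast (Nat.div_add_mod (d i : ℕ) M).symm
      push_cast at h2 ⊢
      rw [h1]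
      linear_combination (-(j : ℤ)) * h2

/-- the asymptotic form -/
theorem rich_ev (hk : 1 ≤ k) {t θ : ℝ} (ht : fM n k < t) (htn : t ≤ n) (hθ : 0 < θ) (hθ1 : θ < 1) :
    ∀ᶠ N : ℕ in atTop, ∃ (M : ℕ) (X : Finset (Fin n → ℤ)), (N : ℝ) ^ (1 - θ) / 4 ≤ M ∧
      (X.card : ℝ) ≤ k ^ n * (N : ℝ) ^ (n - θ * (n - t)) ∧
      ∃ Ψ : Box n N → Box n M → Box n N, (∀ d, Function.Injective (Ψ d)) ∧
        ∀ (d : Box n N) (u : Box n M) (j : ℕ), j < k →
          (fun i => (((Ψ d u i : ℕ) : ℤ) + (j : ℤ) * ((d i : ℕ) : ℤ))) ∈ X := by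
  have h1 : Tendsto (fun N : ℕ => ⌈(N : ℝ) ^ θ⌉₊) atTop atTop :=
    tendsto_nat_ceil_atTop.comp ((tendsto_rpow_atTop hθ).comp tendsto_natCast_atTop_atTop)
  have h2 := ((tendsto_rpow_atTop (show 0 < 1 - θ by linarith)).comp
    tendsto_natCast_atTop_atTop).eventually_ge_atTop (4 : ℝ)
  filter_upwards [h1.eventually (disc_loc hk ht), h2, eventually_ge_atTop 1] with N ⟨A, hA1, hA2⟩ h3 hN
  simp only [Function.comp_apply] at h3
  have hN1 : (1 : ℝ) ≤ N := by exact_mod_cast hN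
  have hN0 : (0 : ℝ) < N := by linarith
  obtain ⟨L, hL⟩ : ∃ L, L = ⌈(N : ℝ) ^ θ⌉₊ := ⟨_, rfl⟩
  rw [← hL] at hA1 hA2
  have hNθ : 1 ≤ (N : ℝ) ^ θ := Real.one_le_rpow hN1 hθ.le
  have hL1 : (N : ℝ) ^ θ ≤ L := by rw [hL]; exact Nat.le_ceil _
  have hL2 : (L : ℝ) ≤ 2 * (N : ℝ) ^ θ := by
    have : (L : ℝ) < (N : ℝ) ^ θ + 1 := by rw [hL]; exact Nat.ceil_lt_add_one (by positivity)
    linarith
  have hL0 : 0 < L := by
    have : (0 : ℝ) < L := by linarith
    exact_mod_cast this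
  have hNN : (N : ℝ) ^ (1 - θ) * (N : ℝ) ^ θ = N := by
    rw [← Real.rpow_add hN0]; simp
  obtain ⟨M, hM⟩ : ∃ M, M = N / L := ⟨_, rfl⟩
  have hLN : 2 * L ≤ N := by
    have : (2 : ℝ) * L ≤ N := by
      calc (2 : ℝ) * L ≤ 4 * (N : ℝ) ^ θ := by linarith
        _ ≤ (N : ℝ) ^ (1 - θ) * (N : ℝ) ^ θ := by gcongr
        _ = N := hNN
    exact_mod_cast this
  have hM1 : 2 ≤ M := by
    rw [hM]
    exact (Nat.le_div_iff_mul_le hL0).2 hLN
  have hML : M * L ≤ N := by rw [hM]; exact Nat.div_mul_le_self N L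
  have hML2 : N < (M + 1) * L := by
    rw [hM]
    have := Nat.lt_div_mul_add (a := N) hL0
    rw [add_mul, one_mul]
    exact this
  have hML3 : N ≤ 2 * L * M := by nlinarith
  obtain ⟨X, hX, Ψ, hΨ1, hΨ2⟩ := exists_rich (k := k) (A := A) (by omega) hML hML3 hA2
  refine ⟨M, X, ?_, ?_, Ψ, hΨ1, hΨ2⟩
  · have h4 : (N : ℝ) ≤ 2 * L * M := by exact_mod_cast hML3
    have h5 : (N : ℝ) ^ (1 - θ) * (N : ℝ) ^ θ ≤ 4 * M * (N : ℝ) ^ θ := by
      rw [hNN]
      have : (0 : ℝ) ≤ M := Nat.cast_nonneg _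
      nlinarith
    have h6 := le_of_mul_le_mul_right h5 (by linarith)
    linarith
  · have hL0' : (0 : ℝ) < L := by exact_mod_cast hL0
    have h4 : (X.card : ℝ) ≤ (L : ℝ) ^ t * ((k : ℝ) * M) ^ n := by
      have h5 : (X.card : ℝ) ≤ ((A.card * (k * M) ^ n : ℕ) : ℝ) := by exact_mod_cast hX
      refine h5.trans ?_
      push_cast
      gcongr
    have h5 : (M : ℝ) ≤ N / L := by
      rw [le_div_iff₀ hL0']
      exact_mod_cast hML
    calc (X.card : ℝ) ≤ (L : ℝ) ^ t * ((k : ℝ) * M) ^ n := h4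
      _ ≤ (L : ℝ) ^ t * ((k : ℝ) * (N / L)) ^ n := by gcongr
      _ = k ^ n * ((N : ℝ) ^ n * (L : ℝ) ^ (-((n : ℝ) - t))) := by
          rw [mul_pow, div_pow, show -((n : ℝ) - t) = t - n by ring, Real.rpow_sub hL0',
            Real.rpow_natCast]
          ring
      _ ≤ k ^ n * ((N : ℝ) ^ n * ((N : ℝ) ^ θ) ^ (-((n : ℝ) - t))) := by
          have : (L : ℝ) ^ (-((n : ℝ) - t)) ≤ ((N : ℝ) ^ θ) ^ (-((n : ℝ) - t)) :=
            Real.rpow_le_rpow_of_nonpos (by positivity) hL1 (by linarith)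
          gcongr
      _ = k ^ n * (N : ℝ) ^ (n - θ * (n - t)) := by
          rw [← Real.rpow_mul hN0.le, ← Real.rpow_natCast (N : ℝ) n, ← Real.rpow_add hN0]
          congr 2
          ring

end Pool.Agent.Q93.EP
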